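import Pool.Agent.helper41.HFE.Spec

/-! Row hfe:GRO (MP_3221a1_ag): strict growth of the Hilbert function of the annihilator -/

set_option autoImplicit false

open Polynomial Module Pool.Agent.HFN

namespace Pool.Agent.HFE

noncomputable section

/-- an element of `V (s+1) j` is `g₀ + x g₁` -/
theorem GRO_split (g : AA) (s j : ℕ) (hg : g ∈ V (s + 1) j) :
    ∃ g0 g1 : AA, g0 ∈ V 0 j ∧ g1 ∈ V s j ∧ g = g1 * C X + g0 := by
  refine ⟨sw (C ((sw g).coeff 0)), sw (divX (sw g)), ?_, ?_, ?_⟩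
  · rw [mem_V_coeff] at hg ⊢
    intro k l h
    rw [sw_coeff, coeff_C]
    by_cases hk : k = 0
    · rw [if_pos hk, sw_coeff]
      exact hg 0 l (Or.inr (by rcases h with h | h <;> omega))
    · rw [if_neg hk, coeff_zero]
  · rw [mem_V_coeff] at hg ⊢
    intro k l h
    rw [sw_coeff, coeff_divX, sw_coeff]
    exact hg (k + 1) l (by rcases h with h | h; left; omega; right; omega)
  · have h1 := divX_mul_X_add (sw g)
    have h2 : sw (X : AA) = C X := by
      unfold sw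
      exact Polynomial.Bivariate.swap_Y
    calc g = sw (sw g) := (sw_sw g).symm
      _ = sw (divX (sw g) * X + C ((sw g).coeff 0)) := by rw [h1]
      _ = _ := by rw [map_add, map_mul, h2]

theorem GRO_g (Z : Finset (ℂ × ℂ)) (z : ℂ × ℂ) (hz : z ∈ Z) :
    (∏ w ∈ Z, (X - C w.1) ^ 2 : ℂ[X]).eval z.1 = 0 ∧ (derivative (∏ w ∈ Z, (X - C w.1) ^ 2 : ℂ[X])).eval z.1 = 0 := by
  obtain ⟨r, hr⟩ : (X - C z.1 : ℂ[X]) ^ 2 ∣ ∏ w ∈ Z, (X - C w.1) ^ 2 :=
    Finset.dvd_prod_of_mem (fun w : ℂ × ℂ => (X - C w.1 : ℂ[X]) ^ 2) hz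
  rw [hr]
  constructor
  · simp
  · simp [derivative_mul, derivative_pow]

theorem GRO (hDFQ : DFQ_stmt) (hDIV : DIV_stmt) (hRNK : RNK_stmt) : GRO_stmt := by
  intro Z i j p q φ f hφ hFu hMn hp hq hf s hps hsi
  by_contra hcon
  push Not at hcon
  obtain ⟨hFc, -⟩ := hRNK Z φ hFu.1
  obtain ⟨W, hW⟩ : ∃ W : Submodule ℂ AA, W = (An φ).restrictScalars ℂ := ⟨_, rfl⟩
  have hWm : ∀ k : AA, k ∈ W ↔ k ∈ An φ := by
    intro k
    rw [hW]
    exact Submodule.restrictScalars_mem ℂ (An φ) k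
  have hfin : FiniteDimensional ℂ (AA ⧸ W) := by
    rw [hW]
    exact hFc
  have h1 := hDFQ (An φ) hFc s j
  have h2 := hDFQ (An φ) hFc (s + 1) j
  rw [← hW] at h1 h2
  obtain ⟨U, hU⟩ : ∃ U : Submodule ℂ AA, U = V s j ⊔ W := ⟨_, rfl⟩
  obtain ⟨U', hU'⟩ : ∃ U' : Submodule ℂ AA, U' = V (s + 1) j ⊔ W := ⟨_, rfl⟩
  rw [← hU] at h1
  rw [← hU'] at h2
  have hle : U ≤ U' := by
    rw [hU, hU']
    exact sup_le_sup_right (V_mono (Nat.le_succ s) le_rfl) W
  have hWU : W ≤ U := by rw [hU]; exact le_sup_right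
  have hfU : FiniteDimensional ℂ (AA ⧸ U) :=
    Module.Finite.of_surjective (Submodule.factor hWU) (Submodule.factor_surjective hWU)
  have hfU' : FiniteDimensional ℂ (AA ⧸ U') :=
    Module.Finite.of_surjective (Submodule.factor (hWU.trans hle)) (Submodule.factor_surjective (hWU.trans hle))
  have h3 : finrank ℂ (AA ⧸ U') ≤ finrank ℂ (AA ⧸ U) :=
    LinearMap.finrank_le_finrank_of_surjective (f := Submodule.factor hle) (Submodule.factor_surjective hle)
  have h4 : finrank ℂ (AA ⧸ U) = finrank ℂ (AA ⧸ U') := by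
    have h5 : (s + 1 + 1) * (j + 1) = (s + 1) * (j + 1) + (j + 1) := by ring
    omega
  have hinj : Function.Injective (Submodule.factor hle) :=
    (LinearMap.injective_iff_surjective_of_finrank_eq_finrank h4).mpr (Submodule.factor_surjective hle)
  have hUU : U' ≤ U := by
    intro x hx
    have h5 : Submodule.factor hle (U.mkQ x) = 0 := by
      rw [Submodule.factor_mk]
      exact (Submodule.Quotient.mk_eq_zero U').mpr hx
    have h6 : U.mkQ x = 0 := hinj (by rw [h5, map_zero])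
    exact (Submodule.Quotient.mk_eq_zero U).mp h6
  have hX : ∀ x ∈ U, x * (C X : AA) ∈ U := by
    intro x hx
    rw [hU] at hx
    obtain ⟨a, ha, b, hb, rfl⟩ := Submodule.mem_sup.1 hx
    rw [add_mul]
    refine U.add_mem ?_ ?_
    · apply hUU
      rw [hU']
      refine Submodule.mem_sup_left ?_
      have h7 : (C X : AA) ∈ V 1 0 := by
        rw [mem_V, dX_C, dY_C, natDegree_X]
        exact ⟨le_rfl, le_rfl⟩
      have h8 := mul_mem_V ha h7
      rwa [add_zero] at h8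
    · apply hWU
      rw [hWm] at hb ⊢
      exact (An φ).mul_mem_right _ hb
  have hall : ∀ s' : ℕ, V s' j ≤ U := by
    intro s'
    induction s' with
    | zero =>
      rw [hU]
      exact (V_mono (Nat.zero_le s) le_rfl).trans le_sup_left
    | succ s' ih =>
      intro g hg
      obtain ⟨g0, g1, hg0, hg1, rfl⟩ := GRO_split g s' j hg
      refine U.add_mem (hX g1 (ih hg1)) ?_
      rw [hU]
      exact Submodule.mem_sup_left (V_mono (Nat.zero_le s) le_rfl hg0)
  have hU0 : ∀ x ∈ U, φ x = 0 := by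
    intro x hx
    rw [hU] at hx
    obtain ⟨a, ha, b, hb, rfl⟩ := Submodule.mem_sup.1 hx
    rw [map_add, hFu.2 a (V_mono hsi.le le_rfl ha), val_of_mem_An ((hWm b).mp hb), add_zero]
  obtain ⟨P, hP⟩ : ∃ P : ℂ[X], P = ∏ w ∈ Z, (X - C w.1) ^ 2 := ⟨_, rfl⟩
  have hP0 : P ≠ 0 := by
    rw [hP]
    exact Finset.prod_ne_zero_iff.mpr fun w _ => pow_ne_zero 2 (X_sub_C_ne_zero w.1)
  have hPd : P.natDegree ≤ 2 * Z.card := by
    rw [hP]
    refine (natDegree_prod_le _ _).trans ?_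
    refine (Finset.sum_le_card_nsmul Z _ 2 fun w _ => ?_).trans ?_
    · rw [natDegree_pow, natDegree_X_sub_C]
    · rw [smul_eq_mul, mul_comm]
  have hgJ : (C P : AA) ∈ JJ Z two := by
    rw [mem_JJ]
    intro z hz
    obtain ⟨e1, e2⟩ := GRO_g Z z hz
    rw [← hP] at e1 e2
    refine ⟨fun _ => ?_, fun _ => ⟨?_, ?_, ?_⟩⟩
    · rw [ev_C, e1]
    · rw [ev_C, e1]
    · rw [Dx_C, ev_C, e2]
    · rw [Dy_C, ev_zero]
  have hgA : (C P : AA) ∈ An φ := le_An hFu.1 hgJ
  have hgV : (C P : AA) ∈ V (2 * Z.card) 0 := by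
    rw [mem_V, dX_C, dY_C]
    exact ⟨hPd, le_rfl⟩
  have hg0 : (C P : AA) ≠ 0 := by
    rw [Ne, C_eq_zero]
    exact hP0
  have hdiv : f ∣ (C P : AA) := by
    by_contra hnd
    have h9 := hDIV φ (i + p + 2 * Z.card) j p q f hFc hφ (fun g hg => hU0 g (hall _ hg)) hMn (by omega) hq
      (C P) (2 * Z.card) 0 hgA hgV (by omega) (by omega) hnd
    have h10 := hMn.deg.1
    omega
  obtain ⟨h, hh⟩ := hdiv
  have hh0 : h ≠ 0 := by
    intro h0
    rw [h0, mul_zero] at hh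
    exact hg0 hh
  have h11 := dY_mul hMn.ne hh0
  rw [← hh, dY_C] at h11
  omega

end

end Pool.Agent.HFE
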